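import Pool.Agent.V8H39.OCode

/-!
The Muchnik degree of `{f | g ≤ f}` contains no closed subset of Cantor space, for suitable `g`.
-/

set_option autoImplicit false

namespace Pool.Agent.V8H39.Baire

open Pool.Agent.V8H39.OCode

/-- The initial segment of length `k` of `x`. -/
def pre (x : ℕ → ℕ) (k : ℕ) : List ℕ := (List.range k).map x

/-- The initial segment of length `k` of `y`. -/
def preB (y : ℕ → Bool) (k : ℕ) : List Bool := (List.range k).map y

@[simp] lemma length_pre (x : ℕ → ℕ) (k : ℕ) : (pre x k).length = k := by simp [pre]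

@[simp] lemma length_preB (x : ℕ → Bool) (k : ℕ) : (preB x k).length = k := by simp [preB]

lemma pre_succ (x : ℕ → ℕ) (k : ℕ) : pre x (k + 1) = pre x k ++ [x k] := by
  simp [pre, List.range_succ]

lemma preB_succ (x : ℕ → Bool) (k : ℕ) : preB x (k + 1) = preB x k ++ [x k] := by
  simp [preB, List.range_succ]

lemma pre_eq_iff {x x' : ℕ → ℕ} {k : ℕ} : pre x k = pre x' k ↔ ∀ i < k, x i = x' i := by
  simp [pre]

/-- `x` extends the string `ρ`. -/
def Ex (x : ℕ → ℕ) (ρ : List ℕ) : Prop := pre x ρ.length = ρ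

lemma ex_pre (x : ℕ → ℕ) (k : ℕ) : Ex x (pre x k) := by simp [Ex]

lemma Ex.snoc {x : ℕ → ℕ} {ρ : List ℕ} {m : ℕ} : Ex x (ρ ++ [m]) ↔ Ex x ρ ∧ x ρ.length = m := by
  unfold Ex
  rw [List.length_append, List.length_singleton, pre_succ]
  constructor
  · intro h
    have h1 := List.append_inj h (by simp)
    exact ⟨h1.1, by simpa using h1.2⟩
  · rintro ⟨h1, h2⟩
    rw [h1, h2]

/-- every string has an extension -/
lemma exists_ex (ρ : List ℕ) : ∃ x, Ex x ρ := by
  refine ⟨fun i => ρ.getD i 0, ?_⟩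
  unfold Ex pre
  apply List.ext_getElem
  · simp
  · intro i h1 h2
    simp [List.getElem?_eq_getElem h2]

/-- `Φ_c^ρ` extends `τ`. -/
def Conv (c : OC) (τ : List Bool) (ρ : List ℕ) : Prop :=
  ∀ x, Ex x ρ → ∀ (i : ℕ) (b : Bool), τ[i]? = some b → b.toNat ∈ ev x c i

/-- `τ` is a possible initial segment of `Φ_c^x` for fast growing `x` which extend `ρ`. -/
inductive Poss (c : OC) (τ : List Bool) : List ℕ → Prop
  | base (ρ : List ℕ) : Conv c τ ρ → Poss c τ ρ
  | lim (ρ : List ℕ) (f : ℕ → ℕ) : (∀ N, N ≤ f N) → (∀ N, Poss c τ (ρ ++ [f N])) → Poss c τ ρ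

lemma conv_snoc {c : OC} {τ : List Bool} {ρ : List ℕ} (h : Conv c τ ρ) (m : ℕ) :
    Conv c τ (ρ ++ [m]) := fun x hx => h x (Ex.snoc.1 hx).1

lemma toNat_inj {a b : Bool} (h : a.toNat = b.toNat) : a = b := by
  cases a <;> cases b <;> simp_all

/-- a possible string is compatible with a decided one -/
lemma Poss.compat {c : OC} {τ τ' : List Bool} {ρ : List ℕ} (h : Poss c τ' ρ) :
    Conv c τ ρ → ∀ (i : ℕ) (b b' : Bool), τ[i]? = some b → τ'[i]? = some b' → b = b' := by
  induction h with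
  | base ρ h =>
    intro h1 i b b' hb hb'
    obtain ⟨x, hx⟩ := exists_ex ρ
    exact toNat_inj (Part.mem_unique (h1 x hx i b hb) (h x hx i b' hb'))
  | lim ρ f hf _ ih =>
    intro h1
    exact ih 0 (conv_snoc h1 _)

/-- `ρ'` is an extension of `ρ` whose new values are above the bounds given by `H` -/
inductive Above (H : List ℕ → ℕ) (ρ : List ℕ) : List ℕ → Prop
  | refl : Above H ρ ρ
  | snoc (ρ' : List ℕ) (m : ℕ) : Above H ρ ρ' → H ρ' ≤ m → Above H ρ (ρ' ++ [m])

lemma Above.trans {H : List ℕ → ℕ} {ρ ρ' ρ'' : List ℕ} (h : Above H ρ ρ')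
    (h' : Above H ρ' ρ'') : Above H ρ ρ'' := by
  induction h' with
  | refl => exact h
  | snoc ρ1 m _ h2 ih => exact Above.snoc _ _ ih h2

lemma exists_freq {P : ℕ → Bool → Prop} (h : ∀ N, ∃ b, P N b) :
    ∃ b, ∀ N, ∃ N', N ≤ N' ∧ P N' b := by
  by_contra hcon
  push Not at hcon
  obtain ⟨N0, h0⟩ := hcon false
  obtain ⟨N1, h1⟩ := hcon true
  obtain ⟨b, hb⟩ := h (max N0 N1)
  cases b
  · exact h0 _ (le_max_left _ _) hb
  · exact h1 _ (le_max_right _ _) hb

/-- A possible string has a possible extension. -/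
lemma Poss.extend {c : OC} {τ : List Bool} {H : List ℕ → ℕ} {ρ : List ℕ} (h : Poss c τ ρ) :
    (∀ ρ', Above H ρ ρ' → ∃ τ' : List Bool, τ'.length = τ.length + 1 ∧ Poss c τ' ρ') →
    ∃ b, Poss c (τ ++ [b]) ρ := by
  induction h with
  | base ρ h =>
    intro h1
    obtain ⟨τ', hl, hτ'⟩ := h1 ρ Above.refl
    have h2 := hτ'.compat h
    have h3 : τ' = τ ++ [τ'[τ.length]'(by omega)] := by
      apply List.ext_getElem
      · simp [hl]
      · intro i h4 h5
        by_cases h6 : i < τ.length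
        · rw [List.getElem_append_left h6]
          exact (h2 i _ _ (List.getElem?_eq_getElem h6) (List.getElem?_eq_getElem h4)).symm
        · have h7 : i = τ.length := by omega
          subst h7
          simp
    rw [h3] at hτ'
    exact ⟨_, hτ'⟩
  | lim ρ f hf h0 ih =>
    intro h1
    have h2 : ∀ N, ∃ b, Poss c (τ ++ [b]) (ρ ++ [f (N + H ρ)]) := by
      intro N
      apply ih
      intro ρ' hρ'
      apply h1
      refine Above.trans (Above.snoc _ _ Above.refl ?_) hρ'
      exact le_trans (Nat.le_add_left _ _) (hf _)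
    obtain ⟨b, hb⟩ := exists_freq h2
    choose g hg using hb
    refine ⟨b, Poss.lim ρ (fun N => f (g N + H ρ)) (fun N => ?_) (fun N => (hg N).2)⟩
    exact le_trans (le_trans (hg N).1 (Nat.le_add_right _ _)) (hf _)

/-- A possible string can be decided. -/
lemma Poss.decide {c : OC} {τ : List Bool} {ρ : List ℕ} (h : Poss c τ ρ) (H : List ℕ → ℕ) :
    ∃ ρ', Above H ρ ρ' ∧ Conv c τ ρ' := by
  induction h with
  | base ρ h => exact ⟨ρ, Above.refl, h⟩
  | lim ρ f hf _ ih =>
    obtain ⟨ρ', h1, h2⟩ := ih (H ρ)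
    exact ⟨ρ', Above.trans (Above.snoc _ _ Above.refl (hf _)) h1, h2⟩

/-- `f` extends `ρ` and the further values are above the bounds given by `H` -/
def Through (f : ℕ → ℕ) (ρ : List ℕ) (H : List ℕ → ℕ) : Prop :=
  Ex f ρ ∧ ∀ k, ρ.length ≤ k → H (pre f k) ≤ f k

/-- no string of length `n` is possible -/
def Dead (c : OC) (n : ℕ) (ρ : List ℕ) : Prop := ∀ τ : List Bool, τ.length = n → ¬ Poss c τ ρ

lemma Dead.next {c : OC} {n : ℕ} {ρ : List ℕ} (h : Dead c n ρ) :
    ∃ N, ∀ m, N ≤ m → Dead c n (ρ ++ [m]) := by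
  by_contra hcon
  push Not at hcon
  unfold Dead at hcon
  push Not at hcon
  choose m hm τ hτ hP using hcon
  have hfin : (Set.range τ).Finite :=
    (List.finite_length_eq Bool n).subset (by rintro _ ⟨N, rfl⟩; exact hτ N)
  obtain ⟨N0, hN0⟩ : ∃ N0, ∀ N, ∃ N', N ≤ N' ∧ τ N' = τ N0 := by
    by_contra hc
    push Not at hc
    choose B hB using hc
    obtain ⟨S, hS⟩ := hfin.exists_finset_coe
    have h1 : ∀ t ∈ Set.range τ, ∃ M, ∀ N', M ≤ N' → τ N' ≠ t := by
      rintro _ ⟨N, rfl⟩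
      exact ⟨B N, hB N⟩
    have h2 : ∀ t : List Bool, ∃ M, t ∈ Set.range τ → ∀ N', M ≤ N' → τ N' ≠ t := by
      intro t
      by_cases ht : t ∈ Set.range τ
      · obtain ⟨M, hM⟩ := h1 t ht
        exact ⟨M, fun _ => hM⟩
      · exact ⟨0, fun h => absurd h ht⟩
    choose M hM using h2
    have h3 : τ (S.sup M) ∈ Set.range τ := ⟨_, rfl⟩
    refine hM _ h3 (S.sup M) ?_ rfl
    apply Finset.le_sup (f := M)
    rw [← Finset.mem_coe, hS]
    exact h3
  choose g hg using hN0
  refine h (τ N0) (hτ N0) (Poss.lim ρ (fun N => m (g N)) (fun N => ?_) (fun N => ?_))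
  · exact le_trans (hg N).1 (hm _)
  · rw [← (hg N).2]
    exact hP _

lemma Dead.bound {c : OC} {n : ℕ} {ρ : List ℕ} (h : Dead c n ρ) :
    ∃ B : List ℕ → ℕ, ∀ f, Through f ρ B → ∀ k, ρ.length ≤ k → Dead c n (pre f k) := by
  have h1 : ∀ ρ', ∃ N, Dead c n ρ' → ∀ m, N ≤ m → Dead c n (ρ' ++ [m]) := by
    intro ρ'
    by_cases h2 : Dead c n ρ'
    · obtain ⟨N, hN⟩ := h2.next
      exact ⟨N, fun _ => hN⟩
    · exact ⟨0, fun h => absurd h h2⟩
  choose B hB using h1
  refine ⟨B, fun f hf k hk => ?_⟩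
  induction k, hk using Nat.le_induction with
  | base => rw [hf.1]; exact h
  | succ k hk ih =>
    rw [pre_succ]
    exact hB _ ih _ (hf.2 k hk)

/-- A dead condition forces divergence. -/
lemma Dead.not {c : OC} {n : ℕ} {f : ℕ → ℕ} {k0 : ℕ} (h : ∀ k, k0 ≤ k → Dead c n (pre f k))
    (y : ℕ → Bool) (hy : ∀ i, (y i).toNat ∈ ev f c i) : False := by
  have h1 : ∀ i, ∃ k, ∀ x' : ℕ → ℕ, (∀ j < k, x' j = f j) → (y i).toNat ∈ ev x' c i :=
    fun i => use c f i _ (hy i)
  choose K hK using h1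
  set k := max k0 ((Finset.range n).sup K) with hk
  refine h k (le_max_left _ _) (preB y n) (by simp) (Poss.base _ ?_)
  intro x hx i b hb
  have h2 : i < n := by
    have := (List.getElem?_eq_some_iff.1 hb).1
    simpa using this
  have h3 : b = y i := by
    have h4 : (preB y n)[i]? = some (y i) := by simp [preB, h2]
    rw [h4] at hb
    exact (Option.some.inj hb).symm
  rw [h3]
  apply hK i x
  intro j hj
  unfold Ex at hx
  rw [length_pre] at hx
  refine pre_eq_iff.1 hx j (lt_of_lt_of_le hj ?_)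
  exact le_trans (Finset.le_sup (f := K) (Finset.mem_range.2 h2)) (le_max_right _ _)

lemma Above.length_le {H : List ℕ → ℕ} {ρ ρ' : List ℕ} (h : Above H ρ ρ') :
    ρ.length ≤ ρ'.length := by
  induction h with
  | refl => exact le_rfl
  | snoc ρ1 m _ _ ih => simp; omega

/-- The set of the real numbers `y` all of whose initial segments are possible. -/
def Lim (c : OC) (ρ : List ℕ) (y : ℕ → Bool) : Prop := ∀ n, Poss c (preB y n) ρ

/-- Cases for one requirement. -/
lemma step {Q : Set (ℕ → Bool)} (hQ : IsClosed Q)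
    (hv : ∀ c ρ, (∃ y, Lim c ρ y) → ∃ y, Lim c ρ y ∧ y ∉ Q)
    (σ : List ℕ) (H : List ℕ → ℕ) (c : OC) :
    ∃ σ' H', Above H σ σ' ∧ (∀ ρ, H ρ ≤ H' ρ) ∧
      ∀ f, Through f σ' H' → ∀ y ∈ Q, ¬ ∀ i, (y i).toNat ∈ ev f c i := by
  by_cases h1 : ∃ ρ', Above H σ ρ' ∧ ∃ n, Dead c n ρ'
  · obtain ⟨ρ', h2, n, h3⟩ := h1
    obtain ⟨B, hB⟩ := h3.bound
    refine ⟨ρ', fun ρ => max (H ρ) (B ρ), h2, fun ρ => le_max_left _ _, ?_⟩
    intro f hf y _ hy
    exact Dead.not (hB f ⟨hf.1, fun k hk => le_trans (le_max_right _ _) (hf.2 k hk)⟩) y hy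
  · have h2 : ∀ ρ', Above H σ ρ' → ∀ n, ∃ τ : List Bool, τ.length = n ∧ Poss c τ ρ' := by
      intro ρ' hρ' n
      by_contra hcon
      push Not at hcon
      exact h1 ⟨ρ', hρ', n, fun τ hτ => hcon τ hτ⟩
    have h3 : ∃ y, Lim c σ y := by
      have h4 : ∀ t : {τ : List Bool // Poss c τ σ}, ∃ b, Poss c (t.1 ++ [b]) σ := by
        rintro ⟨τ, hτ⟩
        exact hτ.extend (H := H) fun ρ' hρ' => h2 ρ' hρ' _
      choose b hb using h4
      obtain ⟨τ0, hl0, hτ0⟩ := h2 σ Above.refl 0
      have hnil : τ0 = [] := List.length_eq_zero_iff.1 hl0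
      subst hnil
      let s : ℕ → {τ : List Bool // Poss c τ σ} :=
        fun n => Nat.rec ⟨[], hτ0⟩ (fun _ t => ⟨t.1 ++ [b t], hb t⟩) n
      refine ⟨fun n => b (s n), fun n => ?_⟩
      have h5 : preB (fun n => b (s n)) n = (s n).1 := by
        induction n with
        | zero => rfl
        | succ n ih =>
          rw [preB_succ, ih]
      rw [h5]
      exact (s n).2
    obtain ⟨y, hy, hyQ⟩ := hv c σ h3
    obtain ⟨n, hn⟩ : ∃ n, ∀ z ∈ Q, preB z n ≠ preB y n := by
      have h6 : IsOpen Qᶜ := hQ.isOpen_compl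
      rw [isOpen_pi_iff] at h6
      obtain ⟨I, u, hu, hsub⟩ := h6 y hyQ
      refine ⟨I.sup id + 1, fun z hz hzy => ?_⟩
      have h7 : z ∈ Qᶜ := by
        apply hsub
        intro i hi
        have h8 : z i = y i := by
          have h9 : ∀ j < I.sup id + 1, z j = y j := by simpa [preB] using hzy
          exact h9 i (Nat.lt_succ_of_le (Finset.le_sup (f := id) hi))
        rw [h8]
        exact (hu i hi).2
      exact h7 hz
    obtain ⟨σ', h8, h9⟩ := (hy n).decide H
    refine ⟨σ', H, h8, fun ρ => le_rfl, ?_⟩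
    intro f hf z hz hzf
    apply hn z hz
    have h10 := h9 f hf.1
    simp only [preB, List.map_inj_left, List.mem_range]
    intro i hi
    have h11 := h10 i (y i) (by simp [preB, hi])
    exact toNat_inj (Part.mem_unique (hzf i) h11)

lemma Above.take_eq {H : List ℕ → ℕ} {ρ ρ' : List ℕ} (h : Above H ρ ρ') :
    ρ'.take ρ.length = ρ := by
  induction h with
  | refl => simp
  | snoc ρ1 m h1 _ ih =>
    rw [List.take_append_of_le_length h1.length_le]
    exact ih

lemma Above.mono {H H' : List ℕ → ℕ} {ρ ρ' : List ℕ} (h : Above H' ρ ρ')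
    (hH : ∀ ρ, H ρ ≤ H' ρ) : Above H ρ ρ' := by
  induction h with
  | refl => exact Above.refl
  | snoc ρ1 m _ h2 ih => exact Above.snoc _ _ ih (le_trans (hH _) h2)

/-- If all the strings `pre f k` are in `Above H ρ` then `f` is in the condition. -/
lemma through_of_above {H : List ℕ → ℕ} {ρ : List ℕ} {f : ℕ → ℕ}
    (h : ∀ k, ∃ k', k ≤ k' ∧ Above H ρ (pre f k')) : Through f ρ H := by
  have hpre : ∀ k k', k ≤ k' → (pre f k').take k = pre f k := by
    intro k k' hk
    unfold pre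
    rw [← List.map_take, List.take_range, Nat.min_eq_left hk]
  have h2 : ∀ (ρ' : List ℕ), Above H ρ ρ' → ∀ k, ρ.length ≤ k → k < ρ'.length →
      H (ρ'.take k) ≤ ρ'.getD k 0 := by
    intro ρ' h'
    induction h' with
    | refl => intro k hk hk'; omega
    | snoc ρ1 m h1 h3 ih =>
      intro k hk hk'
      rw [List.length_append, List.length_singleton] at hk'
      by_cases h4 : k < ρ1.length
      · have h5 := ih k hk h4
        rw [List.take_append_of_le_length h4.le]
        simp only [List.getD_eq_getElem?_getD] at h5 ⊢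
        rw [List.getElem?_append_left h4]
        exact h5
      · have h5 : k = ρ1.length := by omega
        subst h5
        simpa using h3
  constructor
  · obtain ⟨k', hk', h1⟩ := h ρ.length
    have h3 := h1.take_eq
    rw [hpre _ _ hk'] at h3
    exact h3
  · intro k hk
    obtain ⟨k', hk', h1⟩ := h (k + 1)
    have h3 := h2 _ h1 k hk (by simp; omega)
    rw [hpre k k' (by omega)] at h3
    have h4 : (pre f k').getD k 0 = f k := by
      have : k < k' := by omega
      simp [pre, this]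
    rw [h4] at h3
    exact h3

/-- The fusion argument. -/
lemma fusion {Q : Set (ℕ → Bool)} (hQ : IsClosed Q)
    (hv : ∀ c ρ, (∃ y, Lim c ρ y) → ∃ y, Lim c ρ y ∧ y ∉ Q) (g : ℕ → ℕ) :
    ∃ f : ℕ → ℕ, (∀ n, g n ≤ f n) ∧ ∀ c, ∀ y ∈ Q, ¬ ∀ i, (y i).toNat ∈ ev f c i := by
  classical
  obtain ⟨c0, hc0⟩ := exists_surjective_nat OC
  have h1 : ∀ (p : List ℕ × (List ℕ → ℕ)) (c : OC), ∃ q : List ℕ × (List ℕ → ℕ),
      (Above p.2 p.1 q.1 ∧ p.1.length < q.1.length) ∧ (∀ ρ, p.2 ρ ≤ q.2 ρ) ∧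
      ∀ f, Through f q.1 q.2 → ∀ y ∈ Q, ¬ ∀ i, (y i).toNat ∈ ev f c i := by
    intro p c
    obtain ⟨σ', H', h2, h3, h4⟩ := step hQ hv (p.1 ++ [p.2 p.1]) p.2 c
    refine ⟨⟨σ', H'⟩, ⟨Above.trans (Above.snoc _ _ Above.refl le_rfl) h2, ?_⟩, h3, h4⟩
    have := h2.length_le
    simp at this
    exact this
  choose q hq using h1
  let s : ℕ → List ℕ × (List ℕ → ℕ) :=
    fun n => Nat.rec ([], fun ρ => g ρ.length) (fun n p => q p (c0 n)) n
  have hs : ∀ n, s (n + 1) = q (s n) (c0 n) := fun n => rfl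
  have hab : ∀ n m, n ≤ m → Above (s n).2 (s n).1 (s m).1 ∧ ∀ ρ, (s n).2 ρ ≤ (s m).2 ρ := by
    intro n m hnm
    induction m, hnm using Nat.le_induction with
    | base => exact ⟨Above.refl, fun _ => le_rfl⟩
    | succ m _ ih =>
      rw [hs]
      have h2 := hq (s m) (c0 m)
      exact ⟨ih.1.trans (h2.1.1.mono ih.2), fun ρ => le_trans (ih.2 ρ) (h2.2.1 ρ)⟩
  have hlen : ∀ n, n ≤ (s n).1.length := by
    intro n
    induction n with
    | zero => exact Nat.zero_le _
    | succ n ih =>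
      have h2 := (hq (s n) (c0 n)).1.2
      rw [hs]
      omega
  let f : ℕ → ℕ := fun k => (s (k + 1)).1.getD k 0
  have hf : ∀ n, pre f (s n).1.length = (s n).1 := by
    intro n
    apply List.ext_getElem
    · simp
    · intro i h2 h3
      have h4 : (pre f (s n).1.length)[i] = f i := by simp [pre]
      rw [h4]
      have h5 : i < (s (i + 1)).1.length := lt_of_lt_of_le (Nat.lt_succ_self i) (hlen _)
      have h6 : f i = (s (i + 1)).1[i] := by
        simp [f, List.getElem?_eq_getElem h5]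
      rw [h6]
      rcases le_total n (i + 1) with h7 | h7
      · have h8 := (hab n (i + 1) h7).1.take_eq
        have h9 : ((s (i + 1)).1.take (s n).1.length)[i]'(by
          rw [List.length_take]; exact lt_min h3 h5) = (s n).1[i] := by
          congr 1
        rw [← h9, List.getElem_take]
      · have h8 := (hab (i + 1) n h7).1.take_eq
        have h9 : ((s n).1.take (s (i + 1)).1.length)[i]'(by
          rw [List.length_take]; exact lt_min h5 h3) = (s (i + 1)).1[i] := by
          congr 1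
        rw [← h9, List.getElem_take]
  have hthr : ∀ n, Through f (s n).1 (s n).2 := by
    intro n
    apply through_of_above
    intro k
    refine ⟨(s (max n k)).1.length, le_trans (le_max_right n k) (hlen _), ?_⟩
    rw [hf]
    exact (hab n _ (le_max_left _ _)).1
  refine ⟨f, fun n => ?_, fun c => ?_⟩
  · have h2 := (hthr 0).2 n (Nat.zero_le _)
    have h3 : (s 0).2 (pre f n) = g n := by
      show g (pre f n).length = g n
      rw [length_pre]
    rw [h3] at h2
    exact h2
  · obtain ⟨n, rfl⟩ := hc0 c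
    apply (hq (s n) (c0 n)).2.2
    rw [← hs]
    exact hthr (n + 1)

/-- The theorem. -/
theorem main :
    ∃ P : Set (ℕ → ℕ), IsClosed P ∧
      ∀ Q : Set (ℕ → Bool), IsClosed Q →
        ¬ ((∀ x ∈ P, ∃ y ∈ Q,
              TuringReducible (PFun.lift (fun n => (y n).toNat)) (PFun.lift x)) ∧
           (∀ y ∈ Q, ∃ x ∈ P,
              TuringReducible (PFun.lift x) (PFun.lift (fun n => (y n).toNat)))) := by
  classical
  -- the limit points
  let v : OC × List ℕ → ℕ → Bool := fun p =>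
    if h : ∃ y, Lim p.1 p.2 y then h.choose else fun _ => false
  have hv : ∀ c ρ, (∃ y, Lim c ρ y) → Lim c ρ (v (c, ρ)) := by
    intro c ρ h
    have h1 : v (c, ρ) = h.choose := dif_pos h
    rw [h1]
    exact h.choose_spec
  -- all the functions computable from them
  obtain ⟨e, he⟩ := exists_surjective_nat ((OC × List ℕ) × OC)
  let g : ℕ → ℕ := fun n =>
    if h : (ev (fun k => (v (e n).1 k).toNat) (e n).2 n).Dom then
      (ev (fun k => (v (e n).1 k).toNat) (e n).2 n).get h + 1 else 0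
  refine ⟨{f | ∀ n, g n ≤ f n}, ?_, ?_⟩
  · have h1 : {f : ℕ → ℕ | ∀ n, g n ≤ f n} = ⋂ n, {f : ℕ → ℕ | g n ≤ f n} := by
      ext f; simp
    rw [h1]
    exact isClosed_iInter fun n => isClosed_le continuous_const (continuous_apply n)
  · rintro Q hQ ⟨hPQ, hQP⟩
    have hvQ : ∀ p, v p ∉ Q := by
      intro p hp
      obtain ⟨x, hx, hred⟩ := hQP _ hp
      obtain ⟨c, hc⟩ := exists_code (RecursiveIn.iff_nat.1 hred)
      obtain ⟨n, hn⟩ := he (p, c)
      have h1 : ev (fun k => (v (e n).1 k).toNat) (e n).2 n = Part.some (x n) := by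
        rw [hn]
        exact hc n
      have h2 : g n = x n + 1 := by
        have h3 : (ev (fun k => (v (e n).1 k).toNat) (e n).2 n).Dom := by rw [h1]; trivial
        have h4 : g n = (ev (fun k => (v (e n).1 k).toNat) (e n).2 n).get h3 + 1 := dif_pos h3
        rw [h4]
        congr 1
        exact Part.get_eq_of_mem (by rw [h1]; exact Part.mem_some _) _
      have h5 : g n ≤ x n := hx n
      omega
    obtain ⟨f, hf, hf2⟩ := fusion hQ (fun c ρ h => ⟨v (c, ρ), hv c ρ h, hvQ _⟩) g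
    obtain ⟨y, hy, hred⟩ := hPQ f hf
    obtain ⟨c, hc⟩ := exists_code (RecursiveIn.iff_nat.1 hred)
    refine hf2 c y hy fun i => ?_
    rw [hc i]
    exact Part.mem_some _

end Pool.Agent.V8H39.Baire
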