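import Mathlib

/-!
# Functions on the field with 13 elements with ideal autocorrelation
-/

set_option autoImplicit false

namespace Pool.Agent.V8H39.Cohn

open Complex

/-- the function -/
noncomputable def fn (v1 v2 : ℂ) (a : ZMod 13) : ℂ :=
  (![0, 1, -(I * v1), v1, -v2, -I, -(I * v2), I * v2, I, v2, -v1, I * v1, -1] : Fin 13 → ℂ) a

section

variable {v1 v2 w1 w2 : ℂ} (hw1 : starRingEnd ℂ v1 = w1) (hw2 : starRingEnd ℂ v2 = w2)
  (h1 : v1 * w1 = 1) (h2 : v2 * w2 = 1)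
  (hE0 : I * w1 - I * v1 + (1 + I) * w2 + (1 - I) * v2 - v1 * w2 - v2 * w1 = 0)
  (hE1 : I * v1 * w2 - I * v2 * w1 + (1 + I) * v1 + (1 - I) * w1 - v2 - w2 = 0)
  (hE2 : I * v2 - I * w2 + (1 + I) * v2 * w1 + (1 - I) * v1 * w2 - w1 - v1 = 0)

include hw1 hw2 h1 h2 in
theorem sum0 : ∑ a ∈ Finset.range 13, fn v1 v2 (a : ZMod 13) *
    starRingEnd ℂ (fn v1 v2 (a : ZMod 13)) = 12 := by
  have hI : I * I = -1 := I_mul_I
  simp only [Finset.sum_range_succ, Finset.sum_range_zero]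
  change 0 + 0 * starRingEnd ℂ (0) +
      1 * starRingEnd ℂ (1) +
      (-(I * v1)) * starRingEnd ℂ (-(I * v1)) +
      v1 * starRingEnd ℂ (v1) +
      (-v2) * starRingEnd ℂ (-v2) +
      (-I) * starRingEnd ℂ (-I) +
      (-(I * v2)) * starRingEnd ℂ (-(I * v2)) +
      I * v2 * starRingEnd ℂ (I * v2) +
      I * starRingEnd ℂ (I) +
      v2 * starRingEnd ℂ (v2) +
      (-v1) * starRingEnd ℂ (-v1) +
      I * v1 * starRingEnd ℂ (I * v1) +
      (-1) * starRingEnd ℂ (-1) = 12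
  simp only [map_mul, map_neg, map_one, map_zero, Complex.conj_I, hw1, hw2]
  linear_combination ((-2 * v1 * w1) + (-2) + (-2 * v2 * w2)) * hI + ((4)) * h1 + ((4)) * h2

include hw1 hw2 h1 h2 hE0 in
theorem sum1 : ∑ a ∈ Finset.range 13, fn v1 v2 (a : ZMod 13) *
    starRingEnd ℂ (fn v1 v2 ((a : ZMod 13) + 1)) = -1 := by
  have hI : I * I = -1 := I_mul_I
  simp only [Finset.sum_range_succ, Finset.sum_range_zero]
  change 0 + 0 * starRingEnd ℂ (1) +
      1 * starRingEnd ℂ (-(I * v1)) +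
      (-(I * v1)) * starRingEnd ℂ (v1) +
      v1 * starRingEnd ℂ (-v2) +
      (-v2) * starRingEnd ℂ (-I) +
      (-I) * starRingEnd ℂ (-(I * v2)) +
      (-(I * v2)) * starRingEnd ℂ (I * v2) +
      I * v2 * starRingEnd ℂ (I) +
      I * starRingEnd ℂ (v2) +
      v2 * starRingEnd ℂ (-v1) +
      (-v1) * starRingEnd ℂ (I * v1) +
      I * v1 * starRingEnd ℂ (-1) +
      (-1) * starRingEnd ℂ (0) = -1
  simp only [map_mul, map_neg, map_one, map_zero, Complex.conj_I, hw1, hw2]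
  linear_combination hE0 + ((-1 * w2) + (1 * v2 * w2) + (-1 * v2)) * hI + (0) * h1 + ((-1)) * h2

include hw1 hw2 h1 h2 hE1 in
theorem sum2 : ∑ a ∈ Finset.range 13, fn v1 v2 (a : ZMod 13) *
    starRingEnd ℂ (fn v1 v2 ((a : ZMod 13) + 2)) = -1 := by
  have hI : I * I = -1 := I_mul_I
  simp only [Finset.sum_range_succ, Finset.sum_range_zero]
  change 0 + 0 * starRingEnd ℂ (-(I * v1)) +
      1 * starRingEnd ℂ (v1) +
      (-(I * v1)) * starRingEnd ℂ (-v2) +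
      v1 * starRingEnd ℂ (-I) +
      (-v2) * starRingEnd ℂ (-(I * v2)) +
      (-I) * starRingEnd ℂ (I * v2) +
      (-(I * v2)) * starRingEnd ℂ (I) +
      I * v2 * starRingEnd ℂ (v2) +
      I * starRingEnd ℂ (-v1) +
      v2 * starRingEnd ℂ (I * v1) +
      (-v1) * starRingEnd ℂ (-1) +
      I * v1 * starRingEnd ℂ (0) +
      (-1) * starRingEnd ℂ (1) = -1
  simp only [map_mul, map_neg, map_one, map_zero, Complex.conj_I, hw1, hw2]
  linear_combination hE1 + ((1 * w2) + (1 * v2)) * hI + (0) * h1 + (0) * h2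

include hw1 hw2 h1 h2 hE1 in
theorem sum3 : ∑ a ∈ Finset.range 13, fn v1 v2 (a : ZMod 13) *
    starRingEnd ℂ (fn v1 v2 ((a : ZMod 13) + 3)) = -1 := by
  have hI : I * I = -1 := I_mul_I
  simp only [Finset.sum_range_succ, Finset.sum_range_zero]
  change 0 + 0 * starRingEnd ℂ (v1) +
      1 * starRingEnd ℂ (-v2) +
      (-(I * v1)) * starRingEnd ℂ (-I) +
      v1 * starRingEnd ℂ (-(I * v2)) +
      (-v2) * starRingEnd ℂ (I * v2) +
      (-I) * starRingEnd ℂ (I) +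
      (-(I * v2)) * starRingEnd ℂ (v2) +
      I * v2 * starRingEnd ℂ (-v1) +
      I * starRingEnd ℂ (I * v1) +
      v2 * starRingEnd ℂ (-1) +
      (-v1) * starRingEnd ℂ (0) +
      I * v1 * starRingEnd ℂ (1) +
      (-1) * starRingEnd ℂ (-(I * v1)) = -1
  simp only [map_mul, map_neg, map_one, map_zero, Complex.conj_I, hw1, hw2]
  linear_combination hE1 + ((-1 * v1) + (1) + (-1 * w1)) * hI + (0) * h1 + (0) * h2

include hw1 hw2 h1 h2 hE2 in
theorem sum4 : ∑ a ∈ Finset.range 13, fn v1 v2 (a : ZMod 13) *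
    starRingEnd ℂ (fn v1 v2 ((a : ZMod 13) + 4)) = -1 := by
  have hI : I * I = -1 := I_mul_I
  simp only [Finset.sum_range_succ, Finset.sum_range_zero]
  change 0 + 0 * starRingEnd ℂ (-v2) +
      1 * starRingEnd ℂ (-I) +
      (-(I * v1)) * starRingEnd ℂ (-(I * v2)) +
      v1 * starRingEnd ℂ (I * v2) +
      (-v2) * starRingEnd ℂ (I) +
      (-I) * starRingEnd ℂ (v2) +
      (-(I * v2)) * starRingEnd ℂ (-v1) +
      I * v2 * starRingEnd ℂ (I * v1) +
      I * starRingEnd ℂ (-1) +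
      v2 * starRingEnd ℂ (0) +
      (-v1) * starRingEnd ℂ (1) +
      I * v1 * starRingEnd ℂ (-(I * v1)) +
      (-1) * starRingEnd ℂ (v1) = -1
  simp only [map_mul, map_neg, map_one, map_zero, Complex.conj_I, hw1, hw2]
  linear_combination hE2 + ((-1 * v1 * w2) + (-1 * w1 * v2) + (1 * v1 * w1)) * hI + ((-1)) * h1 + (0) * h2

include hw1 hw2 h1 h2 hE0 in
theorem sum5 : ∑ a ∈ Finset.range 13, fn v1 v2 (a : ZMod 13) *
    starRingEnd ℂ (fn v1 v2 ((a : ZMod 13) + 5)) = -1 := by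
  have hI : I * I = -1 := I_mul_I
  simp only [Finset.sum_range_succ, Finset.sum_range_zero]
  change 0 + 0 * starRingEnd ℂ (-I) +
      1 * starRingEnd ℂ (-(I * v2)) +
      (-(I * v1)) * starRingEnd ℂ (I * v2) +
      v1 * starRingEnd ℂ (I) +
      (-v2) * starRingEnd ℂ (v2) +
      (-I) * starRingEnd ℂ (-v1) +
      (-(I * v2)) * starRingEnd ℂ (I * v1) +
      I * v2 * starRingEnd ℂ (-1) +
      I * starRingEnd ℂ (0) +
      v2 * starRingEnd ℂ (1) +
      (-v1) * starRingEnd ℂ (-(I * v1)) +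
      I * v1 * starRingEnd ℂ (v1) +
      (-1) * starRingEnd ℂ (-v2) = -1
  simp only [map_mul, map_neg, map_one, map_zero, Complex.conj_I, hw1, hw2]
  linear_combination hE0 + ((1 * v1 * w2) + (1 * w1 * v2)) * hI + (0) * h1 + ((-1)) * h2

include hw1 hw2 h1 h2 hE2 in
theorem sum6 : ∑ a ∈ Finset.range 13, fn v1 v2 (a : ZMod 13) *
    starRingEnd ℂ (fn v1 v2 ((a : ZMod 13) + 6)) = -1 := by
  have hI : I * I = -1 := I_mul_I
  simp only [Finset.sum_range_succ, Finset.sum_range_zero]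
  change 0 + 0 * starRingEnd ℂ (-(I * v2)) +
      1 * starRingEnd ℂ (I * v2) +
      (-(I * v1)) * starRingEnd ℂ (I) +
      v1 * starRingEnd ℂ (v2) +
      (-v2) * starRingEnd ℂ (-v1) +
      (-I) * starRingEnd ℂ (I * v1) +
      (-(I * v2)) * starRingEnd ℂ (-1) +
      I * v2 * starRingEnd ℂ (0) +
      I * starRingEnd ℂ (1) +
      v2 * starRingEnd ℂ (-(I * v1)) +
      (-v1) * starRingEnd ℂ (v1) +
      I * v1 * starRingEnd ℂ (-v2) +
      (-1) * starRingEnd ℂ (-I) = -1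
  simp only [map_mul, map_neg, map_one, map_zero, Complex.conj_I, hw1, hw2]
  linear_combination hE2 + ((1 * v1) + (1 * w1)) * hI + ((-1)) * h1 + (0) * h2

include hw1 hw2 h1 h2 hE2 in
theorem sum7 : ∑ a ∈ Finset.range 13, fn v1 v2 (a : ZMod 13) *
    starRingEnd ℂ (fn v1 v2 ((a : ZMod 13) + 7)) = -1 := by
  have hI : I * I = -1 := I_mul_I
  simp only [Finset.sum_range_succ, Finset.sum_range_zero]
  change 0 + 0 * starRingEnd ℂ (I * v2) +
      1 * starRingEnd ℂ (I) +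
      (-(I * v1)) * starRingEnd ℂ (v2) +
      v1 * starRingEnd ℂ (-v1) +
      (-v2) * starRingEnd ℂ (I * v1) +
      (-I) * starRingEnd ℂ (-1) +
      (-(I * v2)) * starRingEnd ℂ (0) +
      I * v2 * starRingEnd ℂ (1) +
      I * starRingEnd ℂ (-(I * v1)) +
      v2 * starRingEnd ℂ (v1) +
      (-v1) * starRingEnd ℂ (-v2) +
      I * v1 * starRingEnd ℂ (-I) +
      (-1) * starRingEnd ℂ (-(I * v2)) = -1
  simp only [map_mul, map_neg, map_one, map_zero, Complex.conj_I, hw1, hw2]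
  linear_combination hE2 + ((1 * w1) + (1 * v1)) * hI + ((-1)) * h1 + (0) * h2

include hw1 hw2 h1 h2 hE0 in
theorem sum8 : ∑ a ∈ Finset.range 13, fn v1 v2 (a : ZMod 13) *
    starRingEnd ℂ (fn v1 v2 ((a : ZMod 13) + 8)) = -1 := by
  have hI : I * I = -1 := I_mul_I
  simp only [Finset.sum_range_succ, Finset.sum_range_zero]
  change 0 + 0 * starRingEnd ℂ (I) +
      1 * starRingEnd ℂ (v2) +
      (-(I * v1)) * starRingEnd ℂ (-v1) +
      v1 * starRingEnd ℂ (I * v1) +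
      (-v2) * starRingEnd ℂ (-1) +
      (-I) * starRingEnd ℂ (0) +
      (-(I * v2)) * starRingEnd ℂ (1) +
      I * v2 * starRingEnd ℂ (-(I * v1)) +
      I * starRingEnd ℂ (v1) +
      v2 * starRingEnd ℂ (-v2) +
      (-v1) * starRingEnd ℂ (-I) +
      I * v1 * starRingEnd ℂ (-(I * v2)) +
      (-1) * starRingEnd ℂ (I * v2) = -1
  simp only [map_mul, map_neg, map_one, map_zero, Complex.conj_I, hw1, hw2]
  linear_combination hE0 + ((1 * w1 * v2) + (1 * v1 * w2)) * hI + (0) * h1 + ((-1)) * h2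

include hw1 hw2 h1 h2 hE2 in
theorem sum9 : ∑ a ∈ Finset.range 13, fn v1 v2 (a : ZMod 13) *
    starRingEnd ℂ (fn v1 v2 ((a : ZMod 13) + 9)) = -1 := by
  have hI : I * I = -1 := I_mul_I
  simp only [Finset.sum_range_succ, Finset.sum_range_zero]
  change 0 + 0 * starRingEnd ℂ (v2) +
      1 * starRingEnd ℂ (-v1) +
      (-(I * v1)) * starRingEnd ℂ (I * v1) +
      v1 * starRingEnd ℂ (-1) +
      (-v2) * starRingEnd ℂ (0) +
      (-I) * starRingEnd ℂ (1) +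
      (-(I * v2)) * starRingEnd ℂ (-(I * v1)) +
      I * v2 * starRingEnd ℂ (v1) +
      I * starRingEnd ℂ (-v2) +
      v2 * starRingEnd ℂ (-I) +
      (-v1) * starRingEnd ℂ (-(I * v2)) +
      I * v1 * starRingEnd ℂ (I * v2) +
      (-1) * starRingEnd ℂ (I) = -1
  simp only [map_mul, map_neg, map_one, map_zero, Complex.conj_I, hw1, hw2]
  linear_combination hE2 + ((1 * v1 * w1) + (-1 * w1 * v2) + (-1 * v1 * w2)) * hI + ((-1)) * h1 + (0) * h2

include hw1 hw2 h1 h2 hE1 in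
theorem sum10 : ∑ a ∈ Finset.range 13, fn v1 v2 (a : ZMod 13) *
    starRingEnd ℂ (fn v1 v2 ((a : ZMod 13) + 10)) = -1 := by
  have hI : I * I = -1 := I_mul_I
  simp only [Finset.sum_range_succ, Finset.sum_range_zero]
  change 0 + 0 * starRingEnd ℂ (-v1) +
      1 * starRingEnd ℂ (I * v1) +
      (-(I * v1)) * starRingEnd ℂ (-1) +
      v1 * starRingEnd ℂ (0) +
      (-v2) * starRingEnd ℂ (1) +
      (-I) * starRingEnd ℂ (-(I * v1)) +
      (-(I * v2)) * starRingEnd ℂ (v1) +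
      I * v2 * starRingEnd ℂ (-v2) +
      I * starRingEnd ℂ (-I) +
      v2 * starRingEnd ℂ (-(I * v2)) +
      (-v1) * starRingEnd ℂ (I * v2) +
      I * v1 * starRingEnd ℂ (I) +
      (-1) * starRingEnd ℂ (v2) = -1
  simp only [map_mul, map_neg, map_one, map_zero, Complex.conj_I, hw1, hw2]
  linear_combination hE1 + ((-1 * w1) + (1) + (-1 * v1)) * hI + (0) * h1 + (0) * h2

include hw1 hw2 h1 h2 hE1 in
theorem sum11 : ∑ a ∈ Finset.range 13, fn v1 v2 (a : ZMod 13) *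
    starRingEnd ℂ (fn v1 v2 ((a : ZMod 13) + 11)) = -1 := by
  have hI : I * I = -1 := I_mul_I
  simp only [Finset.sum_range_succ, Finset.sum_range_zero]
  change 0 + 0 * starRingEnd ℂ (I * v1) +
      1 * starRingEnd ℂ (-1) +
      (-(I * v1)) * starRingEnd ℂ (0) +
      v1 * starRingEnd ℂ (1) +
      (-v2) * starRingEnd ℂ (-(I * v1)) +
      (-I) * starRingEnd ℂ (v1) +
      (-(I * v2)) * starRingEnd ℂ (-v2) +
      I * v2 * starRingEnd ℂ (-I) +
      I * starRingEnd ℂ (-(I * v2)) +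
      v2 * starRingEnd ℂ (I * v2) +
      (-v1) * starRingEnd ℂ (I) +
      I * v1 * starRingEnd ℂ (v2) +
      (-1) * starRingEnd ℂ (-v1) = -1
  simp only [map_mul, map_neg, map_one, map_zero, Complex.conj_I, hw1, hw2]
  linear_combination hE1 + ((1 * v2) + (1 * w2)) * hI + (0) * h1 + (0) * h2

include hw1 hw2 h1 h2 hE0 in
theorem sum12 : ∑ a ∈ Finset.range 13, fn v1 v2 (a : ZMod 13) *
    starRingEnd ℂ (fn v1 v2 ((a : ZMod 13) + 12)) = -1 := by
  have hI : I * I = -1 := I_mul_I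
  simp only [Finset.sum_range_succ, Finset.sum_range_zero]
  change 0 + 0 * starRingEnd ℂ (-1) +
      1 * starRingEnd ℂ (0) +
      (-(I * v1)) * starRingEnd ℂ (1) +
      v1 * starRingEnd ℂ (-(I * v1)) +
      (-v2) * starRingEnd ℂ (v1) +
      (-I) * starRingEnd ℂ (-v2) +
      (-(I * v2)) * starRingEnd ℂ (-I) +
      I * v2 * starRingEnd ℂ (-(I * v2)) +
      I * starRingEnd ℂ (I * v2) +
      v2 * starRingEnd ℂ (I) +
      (-v1) * starRingEnd ℂ (v2) +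
      I * v1 * starRingEnd ℂ (-v1) +
      (-1) * starRingEnd ℂ (I * v1) = -1
  simp only [map_mul, map_neg, map_one, map_zero, Complex.conj_I, hw1, hw2]
  linear_combination hE0 + ((-1 * v2) + (1 * v2 * w2) + (-1 * w2)) * hI + (0) * h1 + ((-1)) * h2

include hw1 hw2 h1 h2 hE0 hE1 hE2 in
theorem sums (h : ZMod 13) (hh : h ≠ 0) : ∑ a ∈ Finset.range 13, fn v1 v2 (a : ZMod 13) *
    starRingEnd ℂ (fn v1 v2 ((a : ZMod 13) + h)) = -1 := by
  have key : ∀ k : ZMod 13, k = 0 ∨ k = 1 ∨ k = 2 ∨ k = 3 ∨ k = 4 ∨ k = 5 ∨ k = 6 ∨ k = 7 ∨ k = 8 ∨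
      k = 9 ∨ k = 10 ∨ k = 11 ∨ k = 12 := by decide
  rcases key h with rfl | rfl | rfl | rfl | rfl | rfl | rfl | rfl | rfl | rfl | rfl | rfl | rfl
  · exact absurd rfl hh
  · exact sum1 hw1 hw2 h1 h2 hE0
  · exact sum2 hw1 hw2 h1 h2 hE1
  · exact sum3 hw1 hw2 h1 h2 hE1
  · exact sum4 hw1 hw2 h1 h2 hE2
  · exact sum5 hw1 hw2 h1 h2 hE0
  · exact sum6 hw1 hw2 h1 h2 hE2
  · exact sum7 hw1 hw2 h1 h2 hE2
  · exact sum8 hw1 hw2 h1 h2 hE0
  · exact sum9 hw1 hw2 h1 h2 hE2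
  · exact sum10 hw1 hw2 h1 h2 hE1
  · exact sum11 hw1 hw2 h1 h2 hE1
  · exact sum12 hw1 hw2 h1 h2 hE0

end

/-- the counterexample -/
theorem exists_fn : ∃ v1 v2 : ℂ, ‖v1‖ = 1 ∧ ‖v2‖ = 1 ∧ v1 ^ 2 ≠ v2 ∧
    (∀ h : ZMod 13, h ≠ 0 → ∑ a ∈ Finset.range 13, fn v1 v2 (a : ZMod 13) *
      starRingEnd ℂ (fn v1 v2 ((a : ZMod 13) + h)) = -1) ∧
    ∑ a ∈ Finset.range 13, fn v1 v2 (a : ZMod 13) * starRingEnd ℂ (fn v1 v2 (a : ZMod 13)) = 12 := by
  -- a root of the cubic polynomial of the Gaussian periods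
  obtain ⟨t, ⟨ht0, ht1⟩, ht⟩ : ∃ t ∈ Set.Icc (0 : ℝ) 1, t ^ 3 + t ^ 2 - 4 * t + 1 = 0 := by
    have hc : ContinuousOn (fun t : ℝ => t ^ 3 + t ^ 2 - 4 * t + 1) (Set.Icc 0 1) := by fun_prop
    have h := intermediate_value_Icc' (by norm_num : (0 : ℝ) ≤ 1) hc
    have h0 : (0 : ℝ) ∈ Set.Icc ((1 : ℝ) ^ 3 + 1 ^ 2 - 4 * 1 + 1) ((0 : ℝ) ^ 3 + 0 ^ 2 - 4 * 0 + 1) := by
      norm_num
    exact h h0
  set v1 : ℂ := ⟨(5 - 2 * t - 2 * t ^ 2) / 5, (2 + 2 * t) / 5⟩ with hv1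
  set v2 : ℂ := ⟨(-1 - 2 * t) / 5, (-6 + 4 * t + 2 * t ^ 2) / 5⟩ with hv2
  have n1 : ((5 - 2 * t - 2 * t ^ 2) / 5) ^ 2 + ((2 + 2 * t) / 5) ^ 2 = 1 := by
    linear_combination (4 / 25 * t + 4 / 25) * ht
  have n2 : ((-1 - 2 * t) / 5) ^ 2 + ((-6 + 4 * t + 2 * t ^ 2) / 5) ^ 2 = 1 := by
    linear_combination (4 / 25 * t + 12 / 25) * ht
  have h1 : v1 * starRingEnd ℂ v1 = 1 := by
    rw [Complex.mul_conj, Complex.normSq_apply]
    have : v1.re * v1.re + v1.im * v1.im = 1 := by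
      rw [hv1]; simp only; linarith [n1]
    rw [this]; simp
  have h2 : v2 * starRingEnd ℂ v2 = 1 := by
    rw [Complex.mul_conj, Complex.normSq_apply]
    have : v2.re * v2.re + v2.im * v2.im = 1 := by
      rw [hv2]; simp only; linarith [n2]
    rw [this]; simp
  have hn : ∀ z : ℂ, z * starRingEnd ℂ z = 1 → ‖z‖ = 1 := by
    intro z hz
    rw [Complex.mul_conj, Complex.normSq_eq_norm_sq] at hz
    have h3 : ‖z‖ ^ 2 = 1 := by exact_mod_cast hz
    have h4 : 0 ≤ ‖z‖ := norm_nonneg z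
    nlinarith
  have hE0 : I * starRingEnd ℂ v1 - I * v1 + (1 + I) * starRingEnd ℂ v2 + (1 - I) * v2 -
      v1 * starRingEnd ℂ v2 - v2 * starRingEnd ℂ v1 = 0 := by
    apply Complex.ext
    · simp [hv1, hv2]
      linear_combination (-16 / 25 : ℝ) * ht
    · simp [hv1, hv2]
      ring
  have hE1 : I * v1 * starRingEnd ℂ v2 - I * v2 * starRingEnd ℂ v1 + (1 + I) * v1 +
      (1 - I) * starRingEnd ℂ v1 - v2 - starRingEnd ℂ v2 = 0 := by
    apply Complex.ext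
    · simp [hv1, hv2]
      linear_combination (-16 / 25 - 8 / 25 * t) * ht
    · simp [hv1, hv2]
      ring
  have hE2 : I * v2 - I * starRingEnd ℂ v2 + (1 + I) * v2 * starRingEnd ℂ v1 +
      (1 - I) * v1 * starRingEnd ℂ v2 - starRingEnd ℂ v1 - v1 = 0 := by
    apply Complex.ext
    · simp [hv1, hv2]
      linear_combination (32 / 25 + 8 / 25 * t) * ht
    · simp [hv1, hv2]
      ring
  refine ⟨v1, v2, hn v1 h1, hn v2 h2, ?_, ?_, ?_⟩
  · intro h
    have him := congrArg Complex.im h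
    rw [sq, Complex.mul_im, hv1, hv2] at him
    simp only at him
    nlinarith
  · intro h hh
    exact sums rfl rfl h1 h2 hE0 hE1 hE2 h hh
  · exact sum0 rfl rfl h1 h2

end Pool.Agent.V8H39.Cohn
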