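import Mathlib

/-!
Codes for functionals computable from an oracle in `ℕ → ℕ`: countability and the use principle.
-/

set_option autoImplicit false

namespace Pool.Agent.V8H39.OCode

/-- Codes for partial recursive functionals. -/
inductive OC : Type
  | zero : OC
  | succ : OC
  | left : OC
  | right : OC
  | oracle : OC
  | pair : OC → OC → OC
  | comp : OC → OC → OC
  | prec : OC → OC → OC
  | rfind : OC → OC

/-- An injective encoding of codes by numbers. -/
def OC.enc : OC → ℕ
  | OC.zero => 0
  | OC.succ => 1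
  | OC.left => 2
  | OC.right => 3
  | OC.oracle => 4
  | OC.pair a b => 4 * Nat.pair a.enc b.enc + 5
  | OC.comp a b => 4 * Nat.pair a.enc b.enc + 6
  | OC.prec a b => 4 * Nat.pair a.enc b.enc + 7
  | OC.rfind a => 4 * a.enc + 8

theorem OC.enc_injective : Function.Injective OC.enc := by
  intro a
  induction a with
  | zero => intro b h; cases b <;> simp only [OC.enc] at h <;> first | rfl | omega
  | succ => intro b h; cases b <;> simp only [OC.enc] at h <;> first | rfl | omega
  | left => intro b h; cases b <;> simp only [OC.enc] at h <;> first | rfl | omega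
  | right => intro b h; cases b <;> simp only [OC.enc] at h <;> first | rfl | omega
  | oracle => intro b h; cases b <;> simp only [OC.enc] at h <;> first | rfl | omega
  | pair a1 a2 h1 h2 =>
    intro b h
    cases b <;> simp only [OC.enc] at h <;> first | omega | skip
    rename_i b1 b2
    have h3 : Nat.pair a1.enc a2.enc = Nat.pair b1.enc b2.enc := by omega
    rw [Nat.pair_eq_pair] at h3
    rw [h1 h3.1, h2 h3.2]
  | comp a1 a2 h1 h2 =>
    intro b h
    cases b <;> simp only [OC.enc] at h <;> first | omega | skip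
    rename_i b1 b2
    have h3 : Nat.pair a1.enc a2.enc = Nat.pair b1.enc b2.enc := by omega
    rw [Nat.pair_eq_pair] at h3
    rw [h1 h3.1, h2 h3.2]
  | prec a1 a2 h1 h2 =>
    intro b h
    cases b <;> simp only [OC.enc] at h <;> first | omega | skip
    rename_i b1 b2
    have h3 : Nat.pair a1.enc a2.enc = Nat.pair b1.enc b2.enc := by omega
    rw [Nat.pair_eq_pair] at h3
    rw [h1 h3.1, h2 h3.2]
  | rfind a1 h1 =>
    intro b h
    cases b <;> simp only [OC.enc] at h <;> first | omega | skip
    rename_i b1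
    have h3 : a1.enc = b1.enc := by omega
    rw [h1 h3]

instance : Countable OC := OC.enc_injective.countable

instance : Nonempty OC := ⟨OC.zero⟩

/-- Evaluation of a code with the oracle `x`. -/
def ev (x : ℕ → ℕ) : OC → ℕ → Part ℕ
  | OC.zero => fun _ => Part.some 0
  | OC.succ => fun n => Part.some (n + 1)
  | OC.left => fun n => Part.some (Nat.unpair n).1
  | OC.right => fun n => Part.some (Nat.unpair n).2
  | OC.oracle => fun n => Part.some (x n)
  | OC.pair a b => fun n => (ev x a n).bind fun u => (ev x b n).map (Nat.pair u)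
  | OC.comp a b => fun n => (ev x b n).bind (ev x a)
  | OC.prec a b => fun p =>
      Nat.rec (ev x a (Nat.unpair p).1) (fun y IH => IH.bind fun i =>
        ev x b (Nat.pair (Nat.unpair p).1 (Nat.pair y i))) (Nat.unpair p).2
  | OC.rfind a => fun n =>
      Nat.rfind fun m => (ev x a (Nat.pair n m)).map (fun m => decide (m = 0))

/-- Every function which is computable from `x` has a code. -/
theorem exists_code {x : ℕ → ℕ} {f : ℕ →. ℕ} (h : Nat.RecursiveIn {PFun.lift x} f) :
    ∃ c, ∀ n, ev x c n = f n := by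
  induction h with
  | zero => exact ⟨OC.zero, fun n => rfl⟩
  | succ => exact ⟨OC.succ, fun n => rfl⟩
  | left => exact ⟨OC.left, fun n => rfl⟩
  | right => exact ⟨OC.right, fun n => rfl⟩
  | oracle g hg =>
    rw [Set.mem_singleton_iff] at hg
    subst hg
    exact ⟨OC.oracle, fun n => rfl⟩
  | @pair f h _ _ h1 h2 =>
    obtain ⟨a, ha⟩ := h1
    obtain ⟨b, hb⟩ := h2
    refine ⟨OC.pair a b, fun n => ?_⟩
    show (ev x a n).bind (fun u => (ev x b n).map (Nat.pair u)) = _
    rw [ha n, hb n]
    simp [Seq.seq, Part.map_eq_map, Part.bind_map]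
  | @comp f h _ _ h1 h2 =>
    obtain ⟨a, ha⟩ := h1
    obtain ⟨b, hb⟩ := h2
    refine ⟨OC.comp a b, fun n => ?_⟩
    show (ev x b n).bind (ev x a) = (h n).bind f
    rw [hb n]
    congr 1
    funext m
    exact ha m
  | @prec f h _ _ h1 h2 =>
    obtain ⟨a, ha⟩ := h1
    obtain ⟨b, hb⟩ := h2
    refine ⟨OC.prec a b, fun p => ?_⟩
    show (Nat.rec (ev x a (Nat.unpair p).1) (fun y IH => IH.bind fun i =>
        ev x b (Nat.pair (Nat.unpair p).1 (Nat.pair y i))) (Nat.unpair p).2 : Part ℕ) =
      (Nat.rec (f (Nat.unpair p).1) (fun y IH => IH.bind fun i =>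
        h (Nat.pair (Nat.unpair p).1 (Nat.pair y i))) (Nat.unpair p).2 : Part ℕ)
    generalize (Nat.unpair p).2 = n
    induction n with
    | zero => exact ha _
    | succ n ih =>
      show Part.bind _ _ = Part.bind _ _
      rw [ih]
      congr 1
      funext i
      exact hb _
  | @rfind f _ h1 =>
    obtain ⟨a, ha⟩ := h1
    refine ⟨OC.rfind a, fun n => ?_⟩
    show Nat.rfind (fun m => (ev x a (Nat.pair n m)).map (fun m => decide (m = 0))) =
      Nat.rfind (fun m => (f (Nat.pair n m)).map (fun m => decide (m = 0)))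
    congr 1
    funext m
    rw [ha]

/-- The use principle. -/
theorem use (c : OC) : ∀ (x : ℕ → ℕ) (n v : ℕ), v ∈ ev x c n →
    ∃ k, ∀ x' : ℕ → ℕ, (∀ i < k, x' i = x i) → v ∈ ev x' c n := by
  induction c with
  | zero => intro x n v h; exact ⟨0, fun x' _ => h⟩
  | succ => intro x n v h; exact ⟨0, fun x' _ => h⟩
  | left => intro x n v h; exact ⟨0, fun x' _ => h⟩
  | right => intro x n v h; exact ⟨0, fun x' _ => h⟩
  | oracle =>
    intro x n v h
    refine ⟨n + 1, fun x' h' => ?_⟩
    simp only [ev, Part.mem_some_iff] at h ⊢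
    rw [h' n (Nat.lt_succ_self n)]
    exact h
  | pair a b ha hb =>
    intro x n v h
    simp only [ev, Part.mem_bind_iff, Part.mem_map_iff] at h
    obtain ⟨u, hu, w, hw, rfl⟩ := h
    obtain ⟨k1, hk1⟩ := ha x n u hu
    obtain ⟨k2, hk2⟩ := hb x n w hw
    refine ⟨max k1 k2, fun x' h' => ?_⟩
    simp only [ev, Part.mem_bind_iff, Part.mem_map_iff]
    exact ⟨u, hk1 x' (fun i hi => h' i (lt_of_lt_of_le hi (le_max_left _ _))), w,
      hk2 x' (fun i hi => h' i (lt_of_lt_of_le hi (le_max_right _ _))), rfl⟩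
  | comp a b ha hb =>
    intro x n v h
    simp only [ev, Part.mem_bind_iff] at h
    obtain ⟨u, hu, hv⟩ := h
    obtain ⟨k1, hk1⟩ := hb x n u hu
    obtain ⟨k2, hk2⟩ := ha x u v hv
    refine ⟨max k1 k2, fun x' h' => ?_⟩
    simp only [ev, Part.mem_bind_iff]
    exact ⟨u, hk1 x' (fun i hi => h' i (lt_of_lt_of_le hi (le_max_left _ _))),
      hk2 x' (fun i hi => h' i (lt_of_lt_of_le hi (le_max_right _ _)))⟩
  | prec a b ha hb =>
    intro x p v h
    simp only [ev] at h ⊢
    revert v
    generalize (Nat.unpair p).2 = n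
    induction n with
    | zero =>
      intro v h
      exact ha x _ v h
    | succ n ih =>
      intro v h
      simp only [Part.mem_bind_iff] at h
      obtain ⟨i, hi, hv⟩ := h
      obtain ⟨k1, hk1⟩ := ih i hi
      obtain ⟨k2, hk2⟩ := hb x _ v hv
      refine ⟨max k1 k2, fun x' h' => ?_⟩
      simp only [Part.mem_bind_iff]
      exact ⟨i, hk1 x' (fun i hi => h' i (lt_of_lt_of_le hi (le_max_left _ _))),
        hk2 x' (fun i hi => h' i (lt_of_lt_of_le hi (le_max_right _ _)))⟩
  | rfind a ha =>
    intro x n v h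
    obtain ⟨h1, h2⟩ := Nat.mem_rfind.1 h
    have key : ∀ (m : ℕ) (b : Bool), b ∈ ((ev x a (Nat.pair n m)).map
          (fun m : ℕ => decide (m = 0))) →
        ∃ k, ∀ x' : ℕ → ℕ, (∀ i < k, x' i = x i) →
          b ∈ ((ev x' a (Nat.pair n m)).map (fun m : ℕ => decide (m = 0))) := by
      intro m b hb
      simp only [Part.mem_map_iff] at hb ⊢
      obtain ⟨u, hu, rfl⟩ := hb
      obtain ⟨k, hk⟩ := ha x _ u hu
      exact ⟨k, fun x' h' => ⟨u, hk x' h', rfl⟩⟩
    obtain ⟨k1, hk1⟩ := key v true h1
    have h3 : ∀ m, ∃ k, m < v → ∀ x' : ℕ → ℕ, (∀ i < k, x' i = x i) →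
          false ∈ ((ev x' a (Nat.pair n m)).map (fun m : ℕ => decide (m = 0))) := by
      intro m
      by_cases hm : m < v
      · obtain ⟨k, hk⟩ := key m false (h2 hm)
        exact ⟨k, fun _ => hk⟩
      · exact ⟨0, fun h => absurd h hm⟩
    choose K hK using h3
    refine ⟨max k1 ((Finset.range v).sup K), fun x' h' => ?_⟩
    refine Nat.mem_rfind.2 ⟨hk1 x' (fun i hi => h' i (lt_of_lt_of_le hi (le_max_left _ _))), ?_⟩
    intro m hm
    refine hK m hm x' (fun i hi => h' i (lt_of_lt_of_le hi ?_))
    exact le_trans (Finset.le_sup (f := K) (Finset.mem_range.2 hm)) (le_max_right _ _)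

end Pool.Agent.V8H39.OCode
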